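import Mathlib
import Pool.Agent.Lib.MP_d2e2bc_co.VMain

set_option autoImplicit false

namespace Pool.Agent.Results.MP_d2e2bc_co.VectorialDegree

open Pool.Agent.Lib.MP_d2e2bc_co

/-- If all maps `x ↦ f (x + a) + f x + B a x`, `a ≠ 0`, take every value of the additive subgroup
`W` equally often, then `f` is induced by a polynomial whose exponents have at most `s + 2` binary
digits equal to one, where `2 ^ s` is the number of `x` with `B x x = 0`. -/
theorem result (m s : ℕ) (F : Type) [Field F] [Fintype F] (hF : Fintype.card F = 2 ^ m)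
    (W : AddSubgroup F) (B : F →+ F →+ F) (hB : ∀ x y, B x y = B y x)
    (hs : Nat.card {x : F // B x x = 0} = 2 ^ s) (f : F → F)
    (hf : ∀ a : F, a ≠ 0 → ∀ w ∈ W,
      Nat.card {x : F // f (x + a) + f x + B a x = w} * Nat.card W = 2 ^ m) :
    ∃ c : Finset (Fin m) → F, ∀ x : F,
      f x = ∑ S : Finset (Fin m) with S.card ≤ s + 2, c S * x ^ ∑ i ∈ S, 2 ^ (i : ℕ) := by
  have : Fact (Nat.Prime 2) := ⟨Nat.prime_two⟩
  have : CharP F 2 := charP_of_card_eq_prime_pow hF
  letI : Algebra (ZMod 2) F := ZMod.algebra F 2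
  have h := Vec.deg_le (W := W) hB (fun a ha w hw => by
    rw [hf a ha w hw, Nat.card_eq_fintype_card, hF]) hF hs
  obtain ⟨c, hc⟩ := (Submodule.mem_span_image_finset_iff_exists_fun' F).1 h
  refine ⟨c, fun x => ?_⟩
  rw [← hc, Finset.sum_apply]
  rfl

end Pool.Agent.Results.MP_d2e2bc_co.VectorialDegree
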